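import Pool.Agent.R176.PM.Final

/-! # MP_208a82_co: `Γ_I(d)` is connected exactly when `I` has no greatest element -/

namespace Pool.Agent.Results.MP_208a82_co.ConnectedIffNoMaximum

open Pool.Agent.R176.PM

/-- For every `d ≥ 2` and every non-trivial interval `I` of positive reals, the graph `Γ_I(d)` of
insertions and deletions on the `d`-dimensional polytopes with volume in `I` is connected if and
only if `I` has no greatest element. -/
theorem result (d : ℕ) (hd : 2 ≤ d) (I : Set ℝ) (hpos : ∀ v ∈ I, 0 < v) (hI : I.OrdConnected)
    (hnt : I.Nontrivial) :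
    (moveGraph d I).Connected ↔ ¬ ∃ M, IsGreatest I M := by
  constructor
  · rintro hcon ⟨M, hM⟩
    exact not_connected_of_max hd hpos hnt hM hcon
  · exact connected_of_no_max hd hpos hI hnt

end Pool.Agent.Results.MP_208a82_co.ConnectedIffNoMaximum
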